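import Pool.Agent.H81.SQ.Targets

namespace Pool.Agent.H79.SQ

open Finset Pool.Agent.H81.SQ
open scoped BigOperators

theorem reg (h1 : T_WREG) (h2 : T_RR) (h3 : T_CEF) : T_REG := by
  classical
  intro ε η ν hε hη hν
  have hε2 : 0 < ε ^ 2 := by positivity
  have key : ∀ j n : ℕ, ∃ C : ℕ,
      ∀ (G : Type) [AddCommGroup G] [Module (ZMod 2) G] [Fintype G] (f : G → G → ℝ) (B : Fac G),
        (∀ x y, 0 ≤ f x y ∧ f x y ≤ 1) → B.TC → B.HR (ν B.cx) → B.cx ≤ n →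
        1 - (j : ℝ) * ε ^ 2 ≤ B.en f →
        ∃ B1 B1' : Fac G, B1'.Ref B1 ∧ B1.cx ≤ C ∧ B1.TC ∧ B1.HR (ν B1.cx) ∧
          (𝔼 x : G, 𝔼 y : G, (B1'.ce f x y - B1.ce f x y) ^ 2) ≤ ε ^ 2 ∧
          U8 (fun x y => ((f x y - B1'.ce f x y : ℝ) : ℂ)) ≤ η B1.cx := by
    intro j
    induction j with
    | zero =>
      intro n
      refine ⟨n, ?_⟩
      intro G _ _ _ f B hf hTC hHR hcx hen
      obtain ⟨n', hn'⟩ := h1 (η B.cx) (hη _) n
      obtain ⟨B', hRef, -, hU⟩ := hn' G B f hf hcx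
      have hc := h3 G B B' f hRef hf
      have hc' := h3 G B' B' f (fun _ _ _ _ h => h) hf
      refine ⟨B, B', hRef, hcx, hTC, hHR, ?_, hU⟩
      have e1 := hc.2.2.2.2.1
      have e2 := hc'.2.2.2.2.2.2
      simp only [Nat.cast_zero, zero_mul, sub_zero] at hen
      linarith
    | succ j ih =>
      intro n
      choose Nf hNf using fun m : ℕ => h1 (η m) (hη m) n
      obtain ⟨n'', hn''⟩ := h2 ν hν ((range (n + 1)).sup Nf)
      obtain ⟨C, hC⟩ := ih n''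
      refine ⟨max n C, ?_⟩
      intro G _ _ _ f B hf hTC hHR hcx hen
      obtain ⟨B', hRef, hcx', hU⟩ := hNf B.cx G B f hf hcx
      have hc := h3 G B B' f hRef hf
      have e1 := hc.2.2.2.2.1
      by_cases hE : (𝔼 x : G, 𝔼 y : G, (B'.ce f x y - B.ce f x y) ^ 2) ≤ ε ^ 2
      · exact ⟨B, B', hRef, le_trans hcx (le_max_left _ _), hTC, hHR, hE, hU⟩
      · push Not at hE
        have hsup : B'.cx ≤ (range (n + 1)).sup Nf :=
          le_trans hcx' (Finset.le_sup (f := Nf) (Finset.mem_range.2 (Nat.lt_succ_of_le hcx)))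
        obtain ⟨B2, hRef2, hcx2, hTC2, hHR2⟩ := hn'' G B' hsup
        have hc2 := h3 G B' B2 f hRef2 hf
        have e3 := hc2.2.2.2.2.1
        have hnn : 0 ≤ 𝔼 x : G, 𝔼 y : G, (B2.ce f x y - B'.ce f x y) ^ 2 :=
          Finset.expect_nonneg fun x _ => Finset.expect_nonneg fun y _ => sq_nonneg _
        have hen2 : 1 - (j : ℝ) * ε ^ 2 ≤ B2.en f := by
          push_cast at hen
          nlinarith
        obtain ⟨B1, B1', r1, r2, r3, r4, r5, r6⟩ := hC G f B2 hf hTC2 hHR2 hcx2 hen2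
        exact ⟨B1, B1', r1, le_trans r2 (le_max_right _ _), r3, r4, r5, r6⟩
  obtain ⟨j, hj⟩ := exists_nat_ge (1 / ε ^ 2)
  obtain ⟨n0, hn0⟩ := h2 ν hν 1
  obtain ⟨C, hC⟩ := key j n0
  refine ⟨C, ?_⟩
  intro G _ _ _ f hf
  let B00 : Fac G := { K := 1, k := 0, lam := fun _ => 0, M := fun i => i.elim0 }
  obtain ⟨B0, -, hcx0, hTC0, hHR0⟩ := hn0 G B00 (le_refl _)
  have hc0 := h3 G B0 B0 f (fun _ _ _ _ h => h) hf
  have hen0 : 1 - (j : ℝ) * ε ^ 2 ≤ B0.en f := by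
    have e := hc0.2.2.2.2.2.1
    have : 1 ≤ (j : ℝ) * ε ^ 2 := by
      rw [div_le_iff₀ hε2] at hj
      exact hj
    linarith
  exact hC G f B0 hf hTC0 hHR0 hcx0 hen0

end Pool.Agent.H79.SQ
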