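import Pool.Agent.H81.SQ.Targets

namespace Pool.Agent.H79.SQ

open Finset Pool.Agent.H81.SQ

theorem two_mul_inj : ∀ t t' : ZMod 2,
    2 * (((t.val : ℕ)) : ZMod 4) = 2 * (((t'.val : ℕ)) : ZMod 4) → t = t' := by
  decide

theorem rr1 (h1 : T_RQ) (h2 : T_COB4) : T_RR1 := by
  classical
  intro G _ _ _ B ν hν hTC hHR
  obtain ⟨K, k, lam, M⟩ := B
  unfold Fac.HR at hHR
  push Not at hHR
  obtain ⟨γ, hγ, hrad⟩ := hHR
  obtain ⟨i0, hi0⟩ : ∃ i, γ i ≠ 0 := by
    by_contra h
    push Not at h
    exact hγ (funext h)
  have hi1 : γ i0 = 1 := by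
    have : ∀ t : ZMod 2, t ≠ 0 → t = 1 := by decide
    exact this _ hi0
  cases k with
  | zero => exact i0.elim0
  | succ k =>
    set C : LinearMap.BilinForm (ZMod 2) G := Fac.comb ⟨K, k + 1, lam, M⟩ γ with hC
    obtain ⟨M', hM's, hM'q⟩ := h1 G C
    obtain ⟨q, hq⟩ := h2 G (C + M') (by
      intro x y
      simp only [LinearMap.add_apply]
      exact hM's x y)
    let R : Submodule (ZMod 2) G := rad C
    have : Finite (G ⧸ R) := Finite.of_surjective _ (Submodule.mkQ_surjective R)
    have : Fintype (G ⧸ R) := Fintype.ofFinite _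
    let L := Fin K × (G ⧸ R) × ZMod 4
    let e : L ≃ Fin (Fintype.card L) := Fintype.equivFin L
    let B' : Fac G :=
      { K := Fintype.card L
        k := k
        lam := fun x => e (lam x, Submodule.Quotient.mk x, q x)
        M := fun j => M (i0.succAbove j) }
    have hlam : ∀ x x', B'.lam x = B'.lam x' →
        lam x = lam x' ∧ x - x' ∈ R ∧ q x = q x' := by
      intro x x' h
      have h' : ((lam x, Submodule.Quotient.mk x, q x) : L)
          = (lam x', Submodule.Quotient.mk x', q x') := e.injective h
      have h2 := congrArg Prod.snd h'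
      exact ⟨congrArg Prod.fst h', (Submodule.Quotient.eq R).1 (congrArg Prod.fst h2),
        congrArg Prod.snd h2⟩
    refine ⟨B', ?_, ?_, rfl, ?_⟩
    · intro x y x' y' h
      simp only [Fac.code, Prod.mk.injEq] at h ⊢
      obtain ⟨hx, hy, hxy, hm⟩ := h
      obtain ⟨hx1, hx2, hx3⟩ := hlam _ _ hx
      obtain ⟨hy1, hy2, hy3⟩ := hlam _ _ hy
      obtain ⟨hz1, hz2, hz3⟩ := hlam _ _ hxy
      refine ⟨hx1, hy1, hz1, ?_⟩
      have hm' : ∀ j, M (i0.succAbove j) x y = M (i0.succAbove j) x' y' := fun j => congrFun hm j
      have hσ : (C + M') x y = (C + M') x' y' := by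
        apply two_mul_inj
        have e1 := hq x y
        have e2 := hq x' y'
        rw [hx3, hy3, hz3] at e1
        rw [e1] at e2
        exact add_left_cancel e2
      have hMM : M' x y = M' x' y' := hM'q x x' y y' hx2 hy2
      have hCC : C x y = C x' y' := by
        simp only [LinearMap.add_apply] at hσ
        rw [hMM] at hσ
        exact add_right_cancel hσ
      have hexp : ∀ a b, C a b = M i0 a b + ∑ j, γ (i0.succAbove j) * M (i0.succAbove j) a b := by
        intro a b
        rw [hC]
        simp only [Fac.comb]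
        rw [Fin.sum_univ_succAbove _ i0]
        simp only [LinearMap.add_apply, LinearMap.smul_apply, LinearMap.sum_apply, smul_eq_mul,
          hi1, one_mul]
      rw [hexp, hexp] at hCC
      have hsum : ∑ j, γ (i0.succAbove j) * M (i0.succAbove j) x y
          = ∑ j, γ (i0.succAbove j) * M (i0.succAbove j) x' y' :=
        Finset.sum_congr rfl fun j _ => by rw [hm' j]
      rw [hsum] at hCC
      have h0 : M i0 x y = M i0 x' y' := add_right_cancel hCC
      funext i
      rcases Fin.eq_self_or_eq_succAbove i0 i with rfl | ⟨j, rfl⟩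
      · exact h0
      · exact hm' j
    · intro x x' h j
      exact hTC x x' (hlam x x' h).1 (i0.succAbove j)
    · have hcard : (Fintype.card L : ℝ) = K * (Fintype.card (G ⧸ R)) * 4 := by
        have : Fintype.card L = K * (Fintype.card (G ⧸ R) * 4) := by
          rw [Fintype.card_prod, Fintype.card_prod, Fintype.card_fin, ZMod.card]
        rw [this]
        push_cast
        ring
      have hG : (Fintype.card G : ℝ) = (Fintype.card R : ℝ) * Fintype.card (G ⧸ R) := by
        have := Submodule.card_eq_card_quotient_mul_card R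
        rw [Nat.card_eq_fintype_card, Nat.card_eq_fintype_card, Nat.card_eq_fintype_card] at this
        rw [this]
        push_cast
        ring
      have hGpos : (0 : ℝ) < Fintype.card G := by
        exact_mod_cast Fintype.card_pos
      have hRpos : (0 : ℝ) < Fintype.card R := by
        have : 0 < Fintype.card R := Fintype.card_pos
        exact_mod_cast this
      have hQpos : (0 : ℝ) < Fintype.card (G ⧸ R) := by
        have : 0 < Fintype.card (G ⧸ R) := Fintype.card_pos
        exact_mod_cast this
      have hlt : ν * Fintype.card (G ⧸ R) < 1 := by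
        have h3 : ν * (Fintype.card G : ℝ) < Fintype.card R := hrad
        rw [hG] at h3
        have h4 : (ν * Fintype.card (G ⧸ R)) * (Fintype.card R : ℝ) < 1 * Fintype.card R := by
          linarith
        exact lt_of_mul_lt_mul_right h4 hRpos.le
      change (Fintype.card L : ℝ) ≤ (K : ℝ) * (4 / ν)
      rw [hcard]
      have hle : (Fintype.card (G ⧸ R) : ℝ) ≤ 1 / ν := by
        rw [le_div_iff₀ hν]
        linarith
      have hK : (0 : ℝ) ≤ K := Nat.cast_nonneg K
      calc (K : ℝ) * (Fintype.card (G ⧸ R)) * 4 ≤ K * (1 / ν) * 4 := by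
            have := mul_le_mul_of_nonneg_left hle hK
            linarith
        _ = K * (4 / ν) := by ring

end Pool.Agent.H79.SQ
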